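import Pool.Agent.H75.FU.OmL
import Pool.Agent.H4.FU.Main
import Pool.Agent.H47.QG.Fin1
import Pool.Agent.H75.TH.Tor

/-!
# Project FULL: from Theorem Omega to the growth of the number of periodic orbits
-/

set_option autoImplicit false

open Module QuadraticForm Filter Topology Function
open Pool.Agent.H47.QG (Pt action flw oseq Gen ind hess Zn MeanIdx Sys orbs Decomp flw_mul
  flw_add_int exists_reps growth ind_map ind_translate)
open Pool.Agent.H60.QG (Torus projP P)

namespace Pool.Agent.H45.FU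

variable {n : ℕ}

/-- Growth from the conclusion of Theorem Omega at one level `k`. -/
theorem growth_of_omega {S : ℕ → Pt n → ℝ} {f : ℕ → Pt n → Pt n} (hS : ∀ j, Gen (S j) (f j))
    {N : ℕ} (hN : 0 < N) (hper : ∀ j, S (j + N) = S j)
    (hfper : ∀ j, f (j + N) = f j) {X : Type*} {φ : X → X} {π : Pt n → X}
    (hsys : Sys (flw f N) φ π (Zn n)) (k : ℕ) (hk : 0 < k)
    (h : (∀ m : ℕ, 0 < m → ∃ W : Finset (Pt n),
      (∀ w, flw f (m * (k * N)) w = w ↔ ∃ w' ∈ W, w - w' ∈ Zn n) ∧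
      ∀ w ∈ W, ∀ w' ∈ W, w - w' ∈ Zn n → w = w') →
      ∃ c₁ : ℝ, 0 < c₁ ∧ ∀ᶠ p : ℕ in atTop, p.Prime → ∀ V : ℕ,
        (∀ A : Finset ℕ, (∀ a ∈ A, ∃ w, flw f (p * (k * N)) w = w ∧ flw f (k * N) w ≠ w ∧
          ind S f (p * (k * N)) w = a) → A.card ≤ V) → c₁ * p ≤ V) :
    ∃ c' > 0, ∀ᶠ T : ℝ in atTop,
      ENNReal.ofReal (c' * T ^ 2 / Real.log T) ≤ ((orbs φ T).encard : ENNReal) := by
  classical
  have hit : ∀ (p : ℕ) (w : Pt n), flw f (p * (k * N)) w = (flw f N)^[k * p] w := by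
    intro p w
    have e1 : p * (k * N) = (k * p) * N := by ring
    rw [e1, flw_mul hfper]
  have hitk : ∀ w : Pt n, flw f (k * N) w = (flw f N)^[k] w := fun w => flw_mul hfper k w
  have hiso : ∀ (m : ℕ) (w e : Pt n), e ∈ Zn n → (flw f N)^[m] (w + e) = (flw f N)^[m] w + e := by
    intro m w e he
    rw [← flw_mul hfper, ← flw_mul hfper, flw_add_int hS _ _ _ he]
  have hfixA : ∀ m : ℕ, ∀ w ∈ {w : Pt n | (flw f N)^[m] w = w}, ∀ e ∈ Zn n,
      w + e ∈ {w : Pt n | (flw f N)^[m] w = w} := by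
    intro m w hw e he
    change (flw f N)^[m] (w + e) = w + e
    rw [hiso m w e he]
    rw [show (flw f N)^[m] w = w from hw]
  have hvmap : ∀ p w, (flw f N)^[k * p] w = w →
      ind S f (p * (k * N)) (flw f N w) = ind S f (p * (k * N)) w := by
    intro p w hw
    have e1 : p * (k * N) = (p * k) * N := by ring
    rw [e1]
    refine ind_map S f hS N hN hper hfper w (p * k) ?_
    rw [← e1, hit]; exact hw
  have hvtr : ∀ p w, ∀ e ∈ Zn n, (flw f N)^[k * p] w = w →
      ind S f (p * (k * N)) (w + e) = ind S f (p * (k * N)) w := by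
    rintro p w _ ⟨a, b, rfl⟩ _
    exact ind_translate S f hS _ w a b
  by_cases hfin : ∀ m, 0 < m → (π '' {w | (flw f N)^[k * m] w = w}).Finite
  swap
  · push Not at hfin
    obtain ⟨m, hm, hinf⟩ := hfin
    refine ⟨1, one_pos, ?_⟩
    filter_upwards [eventually_ge_atTop ((k * m : ℕ) : ℝ)] with T hT
    rw [(Pool.Agent.H47.QG.Cnt_infinite hsys (Nat.mul_pos hk hm) hinf hT).encard_eq]
    exact le_top
  -- the finite case
  obtain ⟨c₁, hc₁, hev⟩ := h (by
    intro m hm
    obtain ⟨W, -, hW, hWd⟩ := exists_reps hsys.ker {w | (flw f N)^[k * m] w = w}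
      (hfixA (k * m)) (hfin m hm) ∅
      (fun c hc => absurd hc (Finset.notMem_empty c))
      (fun c hc => absurd hc (Finset.notMem_empty c))
    exact ⟨W, fun w => by rw [hit]; exact hW w, hWd⟩)
  obtain ⟨P₀, hP₀⟩ := eventually_atTop.1 hev
  refine growth hsys k hk (fun p w => ind S f (p * (k * N)) w) hvmap hvtr c₁ (c₁ * P₀) hc₁ ?_
  intro p hp hD hpf
  have hpP : P₀ ≤ p := by
    have := le_of_mul_le_mul_left hD hc₁
    exact_mod_cast this
  -- all values
  obtain ⟨W, -, hW, -⟩ := exists_reps hsys.ker {w | (flw f N)^[k * p] w = w}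
    (hfixA (k * p)) hpf ∅
    (fun c hc => absurd hc (Finset.notMem_empty c))
    (fun c hc => absurd hc (Finset.notMem_empty c))
  set A : Finset ℕ := (W.filter (fun w => flw f (k * N) w ≠ w)).image
    (ind S f (p * (k * N))) with hA
  have hWf : ∀ w ∈ W, flw f (p * (k * N)) w = w := fun w hw => by
    rw [hit]
    exact (hW w).2 ⟨w, hw, by rw [sub_self]; exact (Zn n).zero_mem⟩
  refine ⟨A, ?_, fun a ha => ?_⟩
  · have h1 : c₁ * p ≤ A.card := by
      refine hP₀ p hpP hp A.card fun B hB => Finset.card_le_card fun b hb => ?_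
      obtain ⟨w, h1, h2, rfl⟩ := hB b hb
      have h3 : w ∈ {w | (flw f N)^[k * p] w = w} := by
        change (flw f N)^[k * p] w = w
        rw [← hit]
        exact h1
      obtain ⟨w', hw', he⟩ := (hW w).1 h3
      rw [hA, Finset.mem_image]
      refine ⟨w', Finset.mem_filter.2 ⟨hw', fun h4 => h2 ?_⟩, ?_⟩
      · have h5 := flw_add_int hS (k * N) w' (w - w') he
        rw [add_sub_cancel, h4, add_sub_cancel] at h5
        exact h5
      · have h5 : w = w' + (w - w') := by abel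
        rw [h5]
        refine (hvtr p w' _ he ?_).symm
        rw [← hit]
        exact hWf w' hw'
    have h2 : 0 ≤ c₁ * (P₀ : ℝ) := by positivity
    linarith
  · obtain ⟨w, hw, rfl⟩ := Finset.mem_image.1 ha
    rw [Finset.mem_filter] at hw
    refine ⟨w, ?_, ?_, rfl⟩
    · rw [← hit]
      exact hWf w hw.1
    · rw [← hitk]
      exact hw.2

/-- **Quadratic growth for every periodic sequence of generating functions.** -/
theorem growth_full {S : ℕ → Pt n → ℝ} {f : ℕ → Pt n → Pt n} (hS : ∀ j, Gen (S j) (f j))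
    (hn : 0 < n) {N : ℕ} [NeZero N] (hper : ∀ j, S (j + N) = S j)
    (hfper : ∀ j, f (j + N) = f j) {X : Type*} {φ : X → X} {π : Pt n → X}
    (hsys : Sys (flw f N) φ π (Zn n)) :
    ∃ c' > 0, ∀ᶠ T : ℝ in atTop,
      ENNReal.ofReal (c' * T ^ 2 / Real.log T) ≤ ((orbs φ T).encard : ENNReal) := by
  have hN : 0 < N := Nat.pos_of_neZero N
  have hit : ∀ (m : ℕ) (w : Pt n), flw f (m * N) w = (flw f N)^[m] w := fun m w =>
    flw_mul hfper m w
  by_cases hfin : ∀ m, 0 < m → (π '' {w | (flw f N)^[m] w = w}).Finite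
  swap
  · push Not at hfin
    obtain ⟨m, hm, hinf⟩ := hfin
    refine ⟨1, one_pos, ?_⟩
    filter_upwards [eventually_ge_atTop (m : ℝ)] with T hT
    rw [(Pool.Agent.H47.QG.Cnt_infinite hsys hm hinf hT).encard_eq]
    exact le_top
  have hfin' : ∀ m : ℕ, 0 < m → ∃ W : Finset (Pt n),
      (∀ w, flw f (m * N) w = w ↔ ∃ w' ∈ W, w - w' ∈ Zn n) ∧
      ∀ w ∈ W, ∀ w' ∈ W, w - w' ∈ Zn n → w = w' := by
    intro m hm
    obtain ⟨W, -, hW, hWd⟩ := exists_reps hsys.ker {w | (flw f N)^[m] w = w}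
      (fun w hw e he => by
        change (flw f N)^[m] (w + e) = w + e
        rw [← flw_mul hfper, flw_add_int hS _ _ _ he, flw_mul hfper]
        rw [show (flw f N)^[m] w = w from hw]) (hfin m hm) ∅
      (fun c hc => absurd hc (Finset.notMem_empty c))
      (fun c hc => absurd hc (Finset.notMem_empty c))
    exact ⟨W, fun w => by rw [hit]; exact hW w, hWd⟩
  obtain ⟨k, hk, hodd, hWr⟩ := Pool.Agent.H4.FU.exists_wrongN hS hn hper hfper hfin'
  exact growth_of_omega hS hN hper hfper hsys k hodd.pos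
    (Pool.Agent.H75.FU.omega_level hS hn hodd hper hfper hWr)

/-- **Quadratic growth for every Hamiltonian diffeomorphism of the torus.** -/
theorem full_all {φ : Torus n → Torus n} (hn : 0 < n) {N : ℕ}
    {S : ℕ → Pt n → ℝ} {ψ : ℕ → Pt n → Pt n} (h : Decomp φ N S ψ) :
    Pool.Agent.H47.QG.QuadGrowth φ := by
  haveI : NeZero N := ⟨h.pos.ne'⟩
  exact Pool.Agent.H47.QG.quadGrowth_of (growth_full h.gen hn h.perS h.perψ h.sys)

end Pool.Agent.H45.FU
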